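import Pool.Agent.U611.MS.Cnsq

/-!
# Connected sums with an arbitrary lattice knot as one summand

Adding `N` knots to an arbitrary knot `l` multiplies the number of polygons of length `n` by at
least `(c n ^ (2 / 3)) ^ N / N!` (up to a bounded change of the length for every summand).
-/

set_option autoImplicit false

namespace Pool.Agent.Results.MP_aea6d5_co.EveryBaseKnot

open Finset Filter Topology KN KN.KQ
open scoped Classical

/-- `FNC k`: the knot group of `k` has a finite non-commutative quotient. `SumFrom l ks N s`: the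
knot `s` is a connected sum of `l` and `ks 0, ..., ks (N - 1)`. `pq (KT l) n` is the number of
polygons of length `n` up to translation of the (unoriented) knot type of `l`.

(1) There are such knots on the lattice (the trefoil).

(2) Let `S` be a finite set of lattice knots with `FNC`, and `l` an arbitrary lattice knot. All the
connected sums of `l` and knots of `S` exist on the lattice. There are `c > 0` and even numbers
`m k` such that for all large `n`, for all `N` and all `ks 0, ..., ks (N - 1)` in `S`, and every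
connected sum `s` of `l` and these knots, the number of polygons of type `s` and length
`n + m (ks 0) + ... + m (ks (N - 1))` is at least `(c n ^ (2 / 3)) ^ N / N!` times the number of
polygons of type `l` and length `n`. If both numbers have asymptotic forms
`A n ^ (α - 3) g ^ n`, `A' n ^ (α' - 3) g' ^ n` along even `n`, where `g, g', A > 0`, then
`g < g'`, or `g = g'` and `α' ≥ α + 2 N / 3`. -/
theorem result :
    (∃ w, SAP w ∧ FNC (vl w)) ∧
    ∀ S : Finset (List V), (∀ k ∈ S, FNC k ∧ ∃ w, SAP w ∧ Same (vl w) k) →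
      ∀ l : List V, (∃ w, SAP w ∧ Same (vl w) l) →
      (∀ (ks : ℕ → List V) (N : ℕ), (∀ i < N, ks i ∈ S) → ∃ w, SAP w ∧ SumFrom l ks N (vl w)) ∧
      (∃ (c : ℝ) (m : List V → ℕ), 0 < c ∧ (∀ k, m k % 2 = 0) ∧
        ∀ᶠ n : ℕ in atTop, ∀ (ks : ℕ → List V) (N : ℕ), (∀ i < N, ks i ∈ S) → ∀ s : List V,
          SumFrom l ks N s → (c * (n : ℝ) ^ (2 / 3 : ℝ)) ^ N / N.factorial * pq (KT l) n ≤
            pq (KT s) (n + ∑ i ∈ range N, m (ks i))) ∧
      ∀ (ks : ℕ → List V) (N : ℕ), (∀ i < N, ks i ∈ S) → ∀ s : List V, SumFrom l ks N s →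
        ∀ g g' A A' α α' : ℝ, 0 < g → 0 < g' → 0 < A → Form (KT l) A α g →
          Form (KT s) A' α' g' → g < g' ∨ g = g' ∧ α + 2 * N / 3 ≤ α' := by
  refine ⟨⟨.zm :: v0, K3XTRE.sap_tre, MS.fnc_tre⟩, fun S hS l hl => ⟨fun ks N hks =>
    MS.sumFrom_exists hl N fun i hi => (hS _ (hks i hi)).2, MS.uniform S hS hl,
    fun ks N hks s hs g g' A A' α α' hg hg' hA h1 h2 => ?_⟩⟩
  obtain ⟨c, M, hc, hM, hev⟩ := MS.fixed_N hS hl hks hs
  exact MS.lex_le hc hM hev hg hg' hA h1 h2

end Pool.Agent.Results.MP_aea6d5_co.EveryBaseKnot
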