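import Pool.Agent.U611.MS.Cnsq

/-!
# Every single knot type is rare in a class of lattice knots closed under connected sums
-/

set_option autoImplicit false

namespace Pool.Agent.Results.MP_aea6d5_co.EveryKnotRare

open Finset Filter Topology KN KN.KQ
open scoped Classical

/-- Let `Q` be a class of knot types closed under connected sums that contains a knot whose group
has a finite non-commutative quotient, and let `l` be any knot in `Q`. Then
`pq (KT l) n ≤ exp (-c n ^ (2 / 3)) pq Q n` for all large even `n`, with some `c > 0`; and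
`gr (KT l) < gr Q` if, for every `ε > 0`, `pq (KT l) n ≥ exp (-ε n ^ (2 / 3)) (gr (KT l)) ^ n` for
infinitely many even `n`, in particular if `pq (KT l) n` has the asymptotic form
`A n ^ (α - 3) (gr (KT l)) ^ n` with `A > 0`. The trefoil is a lattice knot whose group has a
finite non-commutative quotient. -/
theorem result :
    (∀ Q : List Dir → Prop, KClass Q → CSum Q → (∃ w, SAP w ∧ Q w ∧ FNC (vl w)) →
      ∀ l : List V, (∃ w, SAP w ∧ Q w ∧ Same (vl w) l) →
      (∃ c : ℝ, 0 < c ∧ ∀ᶠ j : ℕ in atTop, pq (KT l) (2 * j) ≤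
        Real.exp (-(c * (2 * j : ℝ) ^ (2 / 3 : ℝ))) * pq Q (2 * j)) ∧
      ((∀ ε : ℝ, 0 < ε → ∃ᶠ j : ℕ in atTop,
        Real.exp (-(ε * (2 * j : ℝ) ^ (2 / 3 : ℝ))) * gr (KT l) ^ (2 * j) ≤ pq (KT l) (2 * j)) →
        gr (KT l) < gr Q) ∧
      ∀ A α : ℝ, 0 < A → Form (KT l) A α (gr (KT l)) → gr (KT l) < gr Q) ∧
    ∃ w, SAP w ∧ FNC (vl w) := by
  refine ⟨fun Q hQ hc hk l hl => ?_, ⟨.zm :: v0, K3XTRE.sap_tre, MS.fnc_tre⟩⟩
  obtain ⟨w1, hw1, hq1, hf1⟩ := hk
  have hk' : ∃ w, SAP w ∧ Q w ∧ Same (vl w) (vl w1) := ⟨w1, hw1, hq1, Same.refl _⟩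
  obtain ⟨N, hN⟩ := MS.kt_bounded hQ hf1 hl
  refine ⟨MS.rare hQ hc hk' hN, fun h => MS.strict hQ hc hk' hN h, fun A α hA h => ?_⟩
  rcases le_or_gt (gr (KT l)) 0 with h1 | h1
  · obtain ⟨hg, -, -⟩ := gr_bounds Q hQ ⟨w1, hw1, hq1⟩
    linarith
  · exact MS.strict hQ hc hk' hN (fun ε hε => (MS.of_form h1 hA h ε hε).frequently)

end Pool.Agent.Results.MP_aea6d5_co.EveryKnotRare
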