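import Pool.Agent.U611.MS.Cor

/-!
# Polygons in classes of knot types closed under connected sums have many summands

Let `Q` be a class of knot types of lattice polygons which is closed under connected sums, and `k`
a knot type in `Q`. All but a proportion `exp (-c n ^ (2 / 3))` of the polygons of length `n` and
class `Q` are connected sums of some knot and of at least `c n ^ (2 / 3)` copies of `k`.
-/

set_option autoImplicit false

namespace Pool.Agent.Results.MP_aea6d5_co.ManySummands

open Finset Filter Topology KN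
open scoped Classical

/-- Let `Q` be a class of knot types of lattice polygons which is closed under connected sums, and
`k` a knot type in `Q` (orientations included). Let `K Q n` be the set of the closed self-avoiding
words of length `n` (polygons in `ℤ³` with a starting vertex and an orientation) in the class `Q`,
`pq Q n` the number of polygons of length `n` in `Q` up to translation, `gr Q` its growth constant,
and `Plus k M l`: the knot `l` is a connected sum of some lattice knot and of `M` copies of `k`.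

(1) There is `c > 0` such that for all large even `n = 2 j` all but a proportion
`exp (-c n ^ (2 / 3))` of the words in `K Q n` are connected sums of some knot and of at least
`c n ^ (2 / 3)` copies of `k`.

(2) Let `Q₀` be a subclass of `Q` such that no polygon of `Q₀` is a connected sum with `N` copies of
`k`. (a) `pq Q₀ n ≤ exp (-c n ^ (2 / 3)) pq Q n` for all large even `n`, with some `c > 0`.
(b) If, for every `ε > 0`, `pq Q₀ n ≥ exp (-ε n ^ (2 / 3)) (gr Q₀) ^ n` for infinitely many even
`n`, then `gr Q₀ < gr Q`. (c) In particular `gr Q₀ < gr Q` if the numbers `pq Q₀ n` have an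
asymptotic form `A n ^ (α - 3) (gr Q₀) ^ n` along the even `n` with `A > 0`.

(3) The unknot is an example of `Q₀`, with `N = 1`, for every `k` with non-commutative knot group,
and there are such knots (the trefoil). -/
theorem result :
    (∀ Q : List Dir → Prop, KClass Q → CSum Q →
      ∀ k : List V, (∃ w, SAP w ∧ Q w ∧ Same (vl w) k) →
      (∃ c : ℝ, 0 < c ∧ ∀ᶠ j : ℕ in atTop,
        (((K Q (2 * j)).filter (fun w => ¬ ∃ M : ℕ, c * (2 * j : ℝ) ^ (2 / 3 : ℝ) ≤ M ∧
          Plus k M (vl w))).card : ℝ) ≤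
          Real.exp (-(c * (2 * j : ℝ) ^ (2 / 3 : ℝ))) * (K Q (2 * j)).card) ∧
      ∀ (Q₀ : List Dir → Prop) (N : ℕ), (∀ w, SAP w → Q₀ w → Q w ∧ ¬ Plus k N (vl w)) →
        (∃ c : ℝ, 0 < c ∧ ∀ᶠ j : ℕ in atTop,
          pq Q₀ (2 * j) ≤ Real.exp (-(c * (2 * j : ℝ) ^ (2 / 3 : ℝ))) * pq Q (2 * j)) ∧
        ((∀ ε : ℝ, 0 < ε → ∃ᶠ j : ℕ in atTop,
          Real.exp (-(ε * (2 * j : ℝ) ^ (2 / 3 : ℝ))) * gr Q₀ ^ (2 * j) ≤ pq Q₀ (2 * j)) →
          gr Q₀ < gr Q) ∧
        ∀ A α : ℝ, 0 < A →
          Tendsto (fun j : ℕ => pq Q₀ (2 * j) / ((2 * j : ℝ) ^ (α - 3) * gr Q₀ ^ (2 * j))) atTop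
            (𝓝 A) →
          gr Q₀ < gr Q) ∧
    (∀ k : List V, NCG k → ∀ w, U w → ¬ Plus k 1 (vl w)) ∧ ∃ w, SAP w ∧ NCG (vl w) := by
  refine ⟨fun Q hQ hc k hk => ⟨MS.many hQ hc hk, fun Q₀ N h0 =>
    ⟨MS.rare hQ hc hk h0, fun h => MS.strict hQ hc hk h0 h, fun A α hA h => ?_⟩⟩,
    fun k hk w hU => MS.U_plus hk hU,
    ⟨.zm :: v0, ⟨by decide, by decide +kernel, by decide +kernel⟩, e_tre⟩⟩
  rcases le_or_gt (gr Q₀) 0 with h1 | h1
  · obtain ⟨w0, hs0, hq0, -⟩ := hk
    obtain ⟨hg, -, -⟩ := gr_bounds Q hQ ⟨w0, hs0, hq0⟩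
    linarith
  · exact MS.strict hQ hc hk h0 (fun ε hε => (MS.of_form h1 hA h ε hε).frequently)

end Pool.Agent.Results.MP_aea6d5_co.ManySummands
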