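import Pool.Agent.U216.MS.Low2

/-!
# Connected sums of up to `c * n ^ (2 / 3)` knots: a lower bound which is uniform in the number and
the choice of the summands
-/

set_option autoImplicit false

namespace Pool.Agent.Results.MP_aea6d5_co.UniformSums

open Filter Topology KN

/-- Let `S` be a finite set of lattice knots whose knot groups are not commutative (such knots exist,
for instance the trefoil). `Sums ks N l` says that `l` is a connected sum of the `N` knots `ks 0`,
…, `ks (N - 1)`, `pq (KT l) n` is the number of polygons of length `n` of the type of `l`, and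
`pq U n` the number of unknotted ones.

For some `c > 0` and all large even `n = 2 j`, at the same time for all `N ≤ c n ^ (2 / 3)` and all
sequences `ks` of `N` knots from `S`: connected sums `l` of the `N` knots exist on the lattice, and
`pq (KT l) n ≥ (c n ^ (2 / 3)) ^ N / N! * pq U n`.

Consequently, for every `M` there is `c > 0` such that for all large even `n`, all
`N ≤ c n ^ (2 / 3)` and all such `ks` and `l`, `pq (KT l) n ≥ M ^ N * pq U n`. -/
theorem result : (∃ w, SAP w ∧ NCG (vl w)) ∧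
    ∀ S : Set (List V), S.Finite → (∀ k ∈ S, NCG k ∧ ∃ w, SAP w ∧ Same (vl w) k) →
      (∃ c : ℝ, 0 < c ∧ ∀ᶠ j : ℕ in atTop, ∀ N : ℕ, (N : ℝ) ≤ c * (2 * j : ℝ) ^ (2 / 3 : ℝ) →
        ∀ ks : ℕ → List V, (∀ i < N, ks i ∈ S) →
          (∃ w, SAP w ∧ Sums ks N (vl w)) ∧
          ∀ l : List V, Sums ks N l →
            (c * (2 * j : ℝ) ^ (2 / 3 : ℝ)) ^ N / (N.factorial : ℝ) * pq U (2 * j) ≤
              pq (KT l) (2 * j)) ∧
      ∀ M : ℝ, 1 ≤ M → ∃ c : ℝ, 0 < c ∧ ∀ᶠ j : ℕ in atTop, ∀ N : ℕ,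
        (N : ℝ) ≤ c * (2 * j : ℝ) ^ (2 / 3 : ℝ) →
        ∀ ks : ℕ → List V, (∀ i < N, ks i ∈ S) → ∀ l : List V, Sums ks N l →
          M ^ N * pq U (2 * j) ≤ pq (KT l) (2 * j) := by
  refine ⟨⟨.zm :: v0, ⟨by decide, by decide +kernel, by decide +kernel⟩, e_tre⟩,
    fun S hS hk => ?_⟩
  exact ⟨Pool.Agent.U216.MS.Lab.many' hS (fun k h => ncg_ninv k (hk k h).1) (fun k h => (hk k h).2),
    fun M hM => Pool.Agent.U216.MS.Lab.powM hS (fun k h => ncg_ninv k (hk k h).1)
      (fun k h => (hk k h).2) M hM⟩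

end Pool.Agent.Results.MP_aea6d5_co.UniformSums
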